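import Pool.Agent.Y778.SG.Stm

/-!
# The rationalised L-groups of group rings form a finitary functor (job SG-FIN)
-/

set_option autoImplicit false

namespace Pool.Agent.Y688.SG

open Pool.Agent.Y483 Matrix

/-! ### Stages -/

/-- A finitely presented group over `G`. -/
structure Stg (G : Type) [Group G] where
  F : Type
  [grp : Group F]
  [fp : Group.IsFinitelyPresented F]
  h : F →* G

attribute [instance] Stg.grp Stg.fp

/-- A later stage. -/
structure Mor {G : Type} [Group G] (s s' : Stg G) where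
  g : s.F →* s'.F
  comm : s'.h.comp g = s.h

/-- The identity. -/
def Mor.id {G : Type} [Group G] (s : Stg G) : Mor s s := ⟨MonoidHom.id _, rfl⟩

/-- The composition. -/
def Mor.comp {G : Type} [Group G] {s s' s'' : Stg G} (m : Mor s s') (m' : Mor s' s'') : Mor s s'' :=
  ⟨m'.g.comp m.g, by rw [← MonoidHom.comp_assoc, m'.comm, m.comm]⟩

theorem Mor.assoc {G : Type} [Group G] {s s' s'' s3 : Stg G} (m : Mor s s') (m' : Mor s' s'')
    (m'' : Mor s'' s3) : (m.comp m').comp m'' = m.comp (m'.comp m'') := rfl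

theorem Mor.comp_id {G : Type} [Group G] {s s' : Stg G} (m : Mor s s') :
    m.comp (Mor.id s') = m := rfl

/-- Finitely many monotone properties hold at a later stage. -/
theorem fin_later {G : Type} [Group G] {s0 : Stg G} {ι : Type} (P : ι → ∀ s : Stg G, Mor s0 s → Prop)
    (mono : ∀ i s s' (m : Mor s0 s) (m' : Mor s s'), P i s m → P i s' (m.comp m'))
    (ex : ∀ i s (m : Mor s0 s), ∃ (s' : Stg G) (m' : Mor s s'), P i s' (m.comp m')) (L : List ι) :
    ∃ (s : Stg G) (m : Mor s0 s), ∀ i ∈ L, P i s m := by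
  induction L with
  | nil => exact ⟨s0, Mor.id s0, fun i hi => absurd hi (by simp)⟩
  | cons i L ih =>
    obtain ⟨s1, m1, h1⟩ := ih
    obtain ⟨s2, m2, h2⟩ := ex i s1 m1
    refine ⟨s2, m1.comp m2, fun j hj => ?_⟩
    rcases List.mem_cons.1 hj with rfl | hj
    · exact h2
    · exact mono j s1 s2 m1 m2 (h1 j hj)

variable {T : Type} [Group T]

/-- The group ring. -/
abbrev Z (F T : Type) [Group F] [Group T] := MonoidAlgebra ℤ (F × T)

/-- The map of group rings. -/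
noncomputable abbrev mq (T : Type) [Group T] {F F' : Type} [Group F] [Group F'] (g : F →* F') :
    Z F T →⋆ₙ+* Z F' T := zgMap (timesT g T)

theorem mq_comm {G : Type} [Group G] {s s' : Stg G} (m : Mor s s') (x : Z s.F T) :
    mq T s'.h (mq T m.g x) = mq T s.h x := by
  have h := zgMap_comp T m.g s'.h
  rw [m.comm] at h
  show _ = zgMap (timesT s.h T) x
  rw [h]
  rfl

theorem mq_comp {G : Type} [Group G] {s s' s'' : Stg G} (m : Mor s s') (m' : Mor s' s'')
    (x : Z s.F T) : mq T (m.comp m').g x = mq T m'.g (mq T m.g x) := by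
  have h := zgMap_comp T m.g m'.g
  show zgMap (timesT (m'.g.comp m.g) T) x = _
  rw [h]
  rfl

/-- Vanishing of a push-forward. -/
theorem md_kill {α β δ M : Type*} [AddCommMonoid M] (γ : α → β) (ψ : β → δ) (r : α →₀ M)
    (h0 : Finsupp.mapDomain (ψ ∘ γ) r = 0)
    (hinj : ∀ x ∈ r.support, ∀ y ∈ r.support, ψ (γ x) = ψ (γ y) → γ x = γ y) :
    Finsupp.mapDomain γ r = 0 := by
  classical
  have h1 : Set.InjOn ψ (γ '' (r.support : Set α)) := by
    rintro _ ⟨x, hx, rfl⟩ _ ⟨y, hy, rfl⟩ h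
    exact hinj x hx y hy h
  refine Finsupp.mapDomain_injOn (M := M) _ h1 ?_ ?_ ?_
  · intro b hb
    have := Finsupp.mapDomain_support hb
    simpa using this
  · intro b hb
    simp at hb
  · rw [← Finsupp.mapDomain_comp, h0, Finsupp.mapDomain_zero]

theorem zgMap_coeff {A B : Type} [Group A] [Group B] (f : A →* B) (x : MonoidAlgebra ℤ A) :
    (zgMap f x).coeff = Finsupp.mapDomain f x.coeff := by
  induction x using MonoidAlgebra.induction_linear with
  | zero => simp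
  | add x y hx hy => rw [map_add, MonoidAlgebra.coeff_add, MonoidAlgebra.coeff_add, hx, hy,
      Finsupp.mapDomain_add]
  | single a c => rw [zgMap_single]; simp [Finsupp.mapDomain_single]

/-- Lifting one element. -/
theorem lift1 {G : Type} [Group G] (a : Z G T) : ∀ s : Stg G, ∃ (s' : Stg G) (_ : Mor s s')
    (a' : Z s'.F T), mq T s'.h a' = a := by
  induction a using MonoidAlgebra.induction_linear with
  | zero => exact fun s => ⟨s, Mor.id s, 0, map_zero _⟩
  | add x y hx hy =>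
    intro s
    obtain ⟨s1, m1, x1, h1⟩ := hx s
    obtain ⟨s2, m2, y2, h2⟩ := hy s1
    refine ⟨s2, m1.comp m2, mq T m2.g x1 + y2, ?_⟩
    rw [map_add, mq_comm, h1, h2]
  | single a c =>
    intro s
    let h' : Monoid.Coprod s.F (FreeGroup (Fin 1)) →* G :=
      Monoid.Coprod.lift s.h (FreeGroup.lift fun _ => a.1)
    refine ⟨⟨Monoid.Coprod s.F (FreeGroup (Fin 1)), h'⟩, ⟨Monoid.Coprod.inl, ?_⟩,
      MonoidAlgebra.single (Monoid.Coprod.inr (FreeGroup.of 0), a.2) c, ?_⟩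
    · exact Monoid.Coprod.lift_comp_inl _ _
    · rw [zgMap_single]
      congr 1
      apply Prod.ext
      · show h' (Monoid.Coprod.inr (FreeGroup.of 0)) = a.1
        simp [h']
      · rfl

/-- Killing one element. -/
theorem kill1 {G : Type} [Group G] (s : Stg G) (b : Z s.F T) (hb : mq T s.h b = 0) :
    ∃ (s' : Stg G) (m : Mor s s'), mq T m.g b = 0 := by
  classical
  let P : Finset s.F := b.coeff.support.image Prod.fst
  let R : Set s.F := {x | ∃ u ∈ P, ∃ v ∈ P, s.h u = s.h v ∧ x = u⁻¹ * v}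
  have hR : R.Finite := by
    have : R ⊆ (fun p : s.F × s.F => p.1⁻¹ * p.2) '' ((P ×ˢ P : Finset (s.F × s.F)) : Set _) := by
      rintro x ⟨u, hu, v, hv, -, rfl⟩
      exact ⟨(u, v), by simp [hu, hv], rfl⟩
    exact (Set.Finite.image _ (Finset.finite_toSet _)).subset this
  let N := Subgroup.normalClosure R
  have hN : N ≤ s.h.ker := by
    apply Subgroup.normalClosure_le_normal
    rintro x ⟨u, -, v, -, h, rfl⟩
    show s.h (u⁻¹ * v) = 1
    rw [map_mul, map_inv, h, inv_mul_cancel]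
  have hfp : Group.IsFinitelyPresented (s.F ⧸ N) :=
    Group.IsFinitelyPresented.quotient N ⟨R, hR, rfl⟩
  let h' : s.F ⧸ N →* G := QuotientGroup.lift N s.h hN
  refine ⟨⟨s.F ⧸ N, h'⟩, ⟨QuotientGroup.mk' N, ?_⟩, ?_⟩
  · ext x
    rfl
  · apply MonoidAlgebra.coeff_injective
    rw [zgMap_coeff]
    refine md_kill _ (timesT h' T) b.coeff ?_ ?_
    · have h1 := congrArg MonoidAlgebra.coeff hb
      rw [zgMap_coeff] at h1
      exact h1
    · intro x hx y hy h
      apply Prod.ext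
      · have h1 : s.h x.1 = s.h y.1 := congrArg Prod.fst h
        have h2 : x.1⁻¹ * y.1 ∈ N := Subgroup.subset_normalClosure
          ⟨x.1, Finset.mem_image_of_mem _ hx, y.1, Finset.mem_image_of_mem _ hy, h1, rfl⟩
        exact QuotientGroup.eq.2 h2
      · have h3 : x.2 = y.2 := (Prod.ext_iff.1 h).2
        exact h3

/-- Lifting finitely many elements. -/
theorem liftF {G : Type} [Group G] (s : Stg G) (A : Set (Z G T)) (hA : A.Finite) :
    ∃ (s' : Stg G) (_ : Mor s s'), ∀ a ∈ A, ∃ a' : Z s'.F T, mq T s'.h a' = a := by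
  obtain ⟨s', m, h⟩ := fin_later (s0 := s)
    (fun (a : Z G T) (s' : Stg G) (_ : Mor s s') => ∃ a' : Z s'.F T, mq T s'.h a' = a)
    (fun a s1 s2 _ m' ⟨a', h⟩ => ⟨mq T m'.g a', by rw [mq_comm, h]⟩)
    (fun a s1 _ => by
      obtain ⟨s2, m2, a', h⟩ := lift1 a s1
      exact ⟨s2, m2, a', h⟩) hA.toFinset.toList
  exact ⟨s', m, fun a ha => h a (by simpa using ha)⟩

/-- Killing finitely many elements. -/
theorem killF {G : Type} [Group G] (s : Stg G) (B : Set (Z s.F T)) (hB : B.Finite)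
    (h0 : ∀ b ∈ B, mq T s.h b = 0) :
    ∃ (s' : Stg G) (m : Mor s s'), ∀ b ∈ B, mq T m.g b = 0 := by
  obtain ⟨s', m, h⟩ := fin_later (s0 := s)
    (fun (b : Z s.F T) (s' : Stg G) (m : Mor s s') => mq T s.h b = 0 → mq T m.g b = 0)
    (fun b s1 s2 m m' h hb => by rw [mq_comp, h hb, map_zero])
    (fun b s1 m => by
      by_cases hb : mq T s.h b = 0
      · obtain ⟨s2, m2, h⟩ := kill1 s1 (mq T m.g b) (by rw [mq_comm, hb])
        exact ⟨s2, m2, fun _ => by rw [mq_comp, h]⟩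
      · exact ⟨s1, Mor.id s1, fun h => absurd h hb⟩) hB.toFinset.toList
  exact ⟨s', m, fun b hb => h b (by simpa using hb) (h0 b hb)⟩

/-! ### Matrices -/

section Mat

variable {R : Type*} {ι κ : Type} [Finite ι] [Finite κ]

/-- The set of entries. -/
def ent (M : Matrix ι κ R) : Set R := Set.range fun p : ι × κ => M p.1 p.2

theorem ent_finite (M : Matrix ι κ R) : (ent M).Finite := Set.finite_range _

end Mat

section Mat

variable {G : Type} [Group G] {ι κ : Type}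

/-- Matrices over the group ring are lifted if their entries are. -/
theorem mat_lift {s : Stg G} {A : Set (Z G T)} (hA : ∀ a ∈ A, ∃ a' : Z s.F T, mq T s.h a' = a)
    {M : Matrix ι κ (Z G T)} (hM : ent M ⊆ A) : ∃ M' : Matrix ι κ (Z s.F T),
      M'.map (mq T s.h) = M := by
  choose f hf using fun (i : ι) (j : κ) => hA _ (hM (⟨(i, j), rfl⟩ : M i j ∈ ent M))
  refine ⟨Matrix.of f, ?_⟩
  apply Matrix.ext
  intro i j
  exact hf i j

theorem mat_kill {s s' : Stg G} {m : Mor s s'} {B : Set (Z s.F T)}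
    (hB : ∀ b ∈ B, mq T m.g b = 0) {M N : Matrix ι κ (Z s.F T)} (h : ent (M - N) ⊆ B) :
    M.map (mq T m.g) = N.map (mq T m.g) := by
  apply Matrix.ext
  intro i j
  have h1 := hB _ (h (⟨(i, j), rfl⟩ : (M - N) i j ∈ ent (M - N)))
  rw [Matrix.sub_apply, map_sub, sub_eq_zero] at h1
  exact h1

theorem ent_zero {s : Stg G} {M N : Matrix ι κ (Z s.F T)}
    (h : M.map (mq T s.h) = N.map (mq T s.h)) : ∀ b ∈ ent (M - N), mq T s.h b = 0 := by
  rintro _ ⟨⟨i, j⟩, rfl⟩
  have h1 := congrFun (congrFun h i) j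
  simp only [Matrix.map_apply] at h1
  show mq T s.h (M i j - N i j) = 0
  rw [map_sub, h1, sub_self]

end Mat

/-- Two matrices which become equal over `G` become equal at a later stage; finitely many pairs. -/
theorem eq_later {G : Type} [Group G] (s : Stg G) {K : Type} [Finite K] {ι κ : K → Type}
    [∀ k, Finite (ι k)] [∀ k, Finite (κ k)] (M N : ∀ k, Matrix (ι k) (κ k) (Z s.F T))
    (h : ∀ k, (M k).map (mq T s.h) = (N k).map (mq T s.h)) :
    ∃ (s' : Stg G) (m : Mor s s'), ∀ k, (M k).map (mq T m.g) = (N k).map (mq T m.g) := by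
  obtain ⟨s', m, h1⟩ := killF s (⋃ k, ent (M k - N k)) (Set.finite_iUnion fun k => ent_finite _)
    (fun b hb => by
      obtain ⟨k, hk⟩ := Set.mem_iUnion.1 hb
      exact ent_zero (h k) b hk)
  exact ⟨s', m, fun k => mat_kill h1 (Set.subset_iUnion (fun k => ent (M k - N k)) k)⟩

theorem eq_later1 {G : Type} [Group G] (s : Stg G) {ι κ : Type} [Finite ι] [Finite κ]
    {M N : Matrix ι κ (Z s.F T)} (h : M.map (mq T s.h) = N.map (mq T s.h)) :
    ∃ (s' : Stg G) (m : Mor s s'), M.map (mq T m.g) = N.map (mq T m.g) := by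
  obtain ⟨s', m, h1⟩ := eq_later s (K := Unit) (fun _ => M) (fun _ => N) (fun _ => h)
  exact ⟨s', m, h1 ()⟩

theorem map_comp {G : Type} [Group G] {s s' s'' : Stg G} (m : Mor s s') (m' : Mor s' s'')
    {ι κ : Type} (M : Matrix ι κ (Z s.F T)) :
    M.map (mq T (m.comp m').g) = (M.map (mq T m.g)).map (mq T m'.g) := by
  apply Matrix.ext
  intro i j
  exact mq_comp m m' _

theorem map_comm {G : Type} [Group G] {s s' : Stg G} (m : Mor s s')
    {ι κ : Type} (M : Matrix ι κ (Z s.F T)) :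
    (M.map (mq T m.g)).map (mq T s'.h) = M.map (mq T s.h) := by
  apply Matrix.ext
  intro i j
  exact mq_comm m _

variable {ε : ℤˣ}

theorem formsMap_comp {G : Type} [Group G] {s s' s'' : Stg G} (m : Mor s s') (m' : Mor s' s'')
    (x : Forms (Z s.F T) ε) :
    formsMap ε (mq T (m.comp m').g) x = formsMap ε (mq T m'.g) (formsMap ε (mq T m.g) x) := by
  unfold formsMap
  congr 1
  apply QForm.ext
  · exact map_comp m m' _
  · exact map_comp m m' _

theorem formsMap_comm {G : Type} [Group G] {s s' : Stg G} (m : Mor s s')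
    (x : Forms (Z s.F T) ε) :
    formsMap ε (mq T s'.h) (formsMap ε (mq T m.g) x) = formsMap ε (mq T s.h) x := by
  unfold formsMap
  congr 1
  apply QForm.ext
  · exact map_comm m _
  · exact map_comm m _

theorem qmap_comp {G : Type} [Group G] {s s' s'' : Stg G} (m : Mor s s') (m' : Mor s' s'') {n : ℕ}
    (x : QForm (Z s.F T) ε (Fin n)) :
    x.map (mq T (m.comp m').g) = (x.map (mq T m.g)).map (mq T m'.g) :=
  QForm.ext (map_comp m m' _) (map_comp m m' _)

theorem qmap_comm {G : Type} [Group G] {s s' : Stg G} (m : Mor s s') {n : ℕ}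
    (x : QForm (Z s.F T) ε (Fin n)) :
    (x.map (mq T m.g)).map (mq T s'.h) = x.map (mq T s.h) :=
  QForm.ext (map_comm m _) (map_comm m _)

/-- Lifting forms. -/
theorem lift_form {G : Type} [Group G] (s : Stg G) {n : ℕ} (x : QForm (Z G T) ε (Fin n)) :
    ∃ (s' : Stg G) (_ : Mor s s') (x' : QForm (Z s'.F T) ε (Fin n)), x'.map (mq T s'.h) = x := by
  obtain ⟨s1, m1, h1⟩ := liftF s (ent x.θ ∪ ent x.ψ) ((ent_finite _).union (ent_finite _))
  obtain ⟨θ, hθ⟩ := mat_lift h1 (M := x.θ) Set.subset_union_left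
  obtain ⟨ψ, hψ⟩ := mat_lift h1 (M := x.ψ) Set.subset_union_right
  have e1 : (dag ε ψ).map (mq T s1.h) = ψ.map (mq T s1.h) := by
    rw [← dag_map, hψ, x.dag_psi]
  have e2 : (ψ * (θ + dag ε θ) * ψ).map (mq T s1.h) = ψ.map (mq T s1.h) := by
    rw [Matrix.map_mul, Matrix.map_mul, Matrix.map_add _ (map_add (mq T s1.h)), ← dag_map, hψ, hθ,
      x.psi_phi_psi]
  have e3 : ((θ + dag ε θ) * ψ * θ * (ψ * (θ + dag ε θ))).map (mq T s1.h) =
      θ.map (mq T s1.h) := by
    rw [Matrix.map_mul, Matrix.map_mul, Matrix.map_mul, Matrix.map_mul,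
      Matrix.map_add _ (map_add (mq T s1.h)), ← dag_map, hψ, hθ, x.compress]
  obtain ⟨s2, m2, h2⟩ := eq_later s1 (K := Fin 3) (ι := fun _ => Fin n) (κ := fun _ => Fin n)
    (T := T)
    ![dag ε ψ, ψ * (θ + dag ε θ) * ψ, (θ + dag ε θ) * ψ * θ * (ψ * (θ + dag ε θ))] ![ψ, ψ, θ]
    (fun k => by fin_cases k; exacts [e1, e2, e3])
  have f1 : (dag ε ψ).map (mq T m2.g) = ψ.map (mq T m2.g) := h2 0
  have f2 : (ψ * (θ + dag ε θ) * ψ).map (mq T m2.g) = ψ.map (mq T m2.g) := h2 1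
  have f3 : ((θ + dag ε θ) * ψ * θ * (ψ * (θ + dag ε θ))).map (mq T m2.g) =
    θ.map (mq T m2.g) := h2 2
  refine ⟨s2, m1.comp m2, ⟨θ.map (mq T m2.g), ψ.map (mq T m2.g), ?_, ?_, ?_⟩, ?_⟩
  · rw [dag_map, f1]
  · rw [dag_map, ← Matrix.map_add _ (map_add (mq T m2.g)), ← Matrix.map_mul, ← Matrix.map_mul, f2]
  · rw [dag_map, ← Matrix.map_add _ (map_add (mq T m2.g)), ← Matrix.map_mul, ← Matrix.map_mul,
      ← Matrix.map_mul, ← Matrix.map_mul, f3]
  · apply QForm.ext
    · show (θ.map (mq T m2.g)).map (mq T s2.h) = x.θ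
      rw [map_comm, hθ]
    · show (ψ.map (mq T m2.g)).map (mq T s2.h) = x.ψ
      rw [map_comm, hψ]

theorem mapH {A B : Type} [Group A] [Group B] (f : A →* B) {ι κ : Type}
    (u : Matrix ι κ (Z A T)) : (u.map (mq T f))ᴴ = uᴴ.map (mq T f) := by
  apply Matrix.ext
  intro i j
  simp [map_star]

/-- Isometries at a later stage. -/
theorem isom_later {G : Type} [Group G] (s : Stg G) {n k : ℕ} (x : QForm (Z s.F T) ε (Fin n))
    (y : QForm (Z s.F T) ε (Fin k)) (h : Isometric (x.map (mq T s.h)) (y.map (mq T s.h))) :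
    ∃ (s' : Stg G) (m : Mor s s'), Isometric (x.map (mq T m.g)) (y.map (mq T m.g)) := by
  obtain ⟨u, h1, χ, h2⟩ := h
  obtain ⟨s1, m1, g1⟩ := liftF s (ent u ∪ ent χ) ((ent_finite _).union (ent_finite _))
  obtain ⟨v, hv⟩ := mat_lift g1 (M := u) Set.subset_union_left
  obtain ⟨ξ, hξ⟩ := mat_lift g1 (M := χ) Set.subset_union_right
  have e1 : (v * (x.map (mq T m1.g)).ψ * vᴴ).map (mq T s1.h) =
      ((y.map (mq T m1.g)).ψ).map (mq T s1.h) := by
    have k1 : ((x.map (mq T m1.g)).ψ).map (mq T s1.h) = (x.map (mq T s.h)).ψ := map_comm m1 _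
    have k2 : ((y.map (mq T m1.g)).ψ).map (mq T s1.h) = (y.map (mq T s.h)).ψ := map_comm m1 _
    rw [Matrix.map_mul, Matrix.map_mul, ← mapH, hv, k1, k2, h1]
  have e2 : (vᴴ * (y.map (mq T m1.g)).θ * v).map (mq T s1.h) =
      ((x.map (mq T m1.g)).θ + (ξ - dag ε ξ)).map (mq T s1.h) := by
    have k1 : ((x.map (mq T m1.g)).θ).map (mq T s1.h) = (x.map (mq T s.h)).θ := map_comm m1 _
    have k2 : ((y.map (mq T m1.g)).θ).map (mq T s1.h) = (y.map (mq T s.h)).θ := map_comm m1 _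
    rw [Matrix.map_mul, Matrix.map_mul, ← mapH, hv, k2, Matrix.map_add _ (map_add (mq T s1.h)),
      Matrix.map_sub _ (map_sub (mq T s1.h)), ← dag_map, k1, hξ, h2]
  obtain ⟨s2, m2, f1⟩ := eq_later1 s1 e1
  have e3 : ((vᴴ * (y.map (mq T m1.g)).θ * v).map (mq T m2.g)).map (mq T s2.h) =
      (((x.map (mq T m1.g)).θ + (ξ - dag ε ξ)).map (mq T m2.g)).map (mq T s2.h) := by
    rw [map_comm, map_comm, e2]
  obtain ⟨s3, m3, f2⟩ := eq_later1 s2 e3
  refine ⟨s3, (m1.comp m2).comp m3, v.map (mq T (m2.comp m3).g), ?_, ξ.map (mq T (m2.comp m3).g),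
    ?_⟩
  · rw [Mor.assoc, qmap_comp, qmap_comp m1]
    show v.map (mq T (m2.comp m3).g) * ((x.map (mq T m1.g)).ψ).map (mq T (m2.comp m3).g) *
      (v.map (mq T (m2.comp m3).g))ᴴ = ((y.map (mq T m1.g)).ψ).map (mq T (m2.comp m3).g)
    rw [mapH, ← Matrix.map_mul, ← Matrix.map_mul, map_comp, map_comp, f1]
  · rw [Mor.assoc, qmap_comp, qmap_comp m1]
    show (v.map (mq T (m2.comp m3).g))ᴴ * ((y.map (mq T m1.g)).θ).map (mq T (m2.comp m3).g) *
      v.map (mq T (m2.comp m3).g) = ((x.map (mq T m1.g)).θ).map (mq T (m2.comp m3).g) +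
        (ξ.map (mq T (m2.comp m3).g) - dag ε (ξ.map (mq T (m2.comp m3).g)))
    rw [mapH, ← Matrix.map_mul, ← Matrix.map_mul, dag_map,
      ← Matrix.map_sub _ (map_sub (mq T (m2.comp m3).g)),
      ← Matrix.map_add _ (map_add (mq T (m2.comp m3).g)), map_comp, map_comp, f2]

/-- Hyperbolic forms at a later stage. -/
theorem hyp_later {G : Type} [Group G] (s : Stg G) {n : ℕ} (x : QForm (Z s.F T) ε (Fin n))
    (h : IsHyp (x.map (mq T s.h))) :
    ∃ (s' : Stg G) (m : Mor s s'), IsHyp (x.map (mq T m.g)) := by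
  obtain ⟨l, h1, h2, h3, χ, h4⟩ := h
  obtain ⟨s1, m1, g1⟩ := liftF s (ent l ∪ ent χ) ((ent_finite _).union (ent_finite _))
  obtain ⟨v, hv⟩ := mat_lift g1 (M := l) Set.subset_union_left
  obtain ⟨ξ, hξ⟩ := mat_lift g1 (M := χ) Set.subset_union_right
  have kx : (x.map (mq T m1.g)).map (mq T s1.h) = x.map (mq T s.h) := qmap_comm m1 x
  have ke : ((x.map (mq T m1.g)).e).map (mq T s1.h) = (x.map (mq T s.h)).e := by
    rw [← QForm.map_e, kx]
  have kp : ((x.map (mq T m1.g)).φ).map (mq T s1.h) = (x.map (mq T s.h)).φ := by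
    rw [← QForm.map_phi, kx]
  have kt : ((x.map (mq T m1.g)).θ).map (mq T s1.h) = (x.map (mq T s.h)).θ := map_comm m1 _
  have e1 : (v * v).map (mq T s1.h) = v.map (mq T s1.h) := by
    rw [Matrix.map_mul, hv, h1]
  have e2 : (v * (x.map (mq T m1.g)).e).map (mq T s1.h) = v.map (mq T s1.h) := by
    rw [Matrix.map_mul, hv, ke, h2]
  have e3 : ((x.map (mq T m1.g)).e * v).map (mq T s1.h) = v.map (mq T s1.h) := by
    rw [Matrix.map_mul, hv, ke, h3]
  have e4 : ((x.map (mq T m1.g)).θ).map (mq T s1.h) =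
      (vᴴ * (x.map (mq T m1.g)).φ + (ξ - dag ε ξ)).map (mq T s1.h) := by
    rw [Matrix.map_add _ (map_add (mq T s1.h)), Matrix.map_mul, ← mapH, hv,
      Matrix.map_sub _ (map_sub (mq T s1.h)), ← dag_map, kt, kp, hξ, h4]
  obtain ⟨s2, m2, f⟩ := eq_later s1 (K := Fin 4) (ι := fun _ => Fin n) (κ := fun _ => Fin n)
    (T := T)
    ![v * v, v * (x.map (mq T m1.g)).e, (x.map (mq T m1.g)).e * v, (x.map (mq T m1.g)).θ]
    ![v, v, v, vᴴ * (x.map (mq T m1.g)).φ + (ξ - dag ε ξ)]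
    (fun k => by fin_cases k; exacts [e1, e2, e3, e4])
  have f1 : (v * v).map (mq T m2.g) = v.map (mq T m2.g) := f 0
  have f2 : (v * (x.map (mq T m1.g)).e).map (mq T m2.g) = v.map (mq T m2.g) := f 1
  have f3 : ((x.map (mq T m1.g)).e * v).map (mq T m2.g) = v.map (mq T m2.g) := f 2
  have f4 : ((x.map (mq T m1.g)).θ).map (mq T m2.g) =
      (vᴴ * (x.map (mq T m1.g)).φ + (ξ - dag ε ξ)).map (mq T m2.g) := f 3
  refine ⟨s2, m1.comp m2, v.map (mq T m2.g), ?_, ?_, ?_, ξ.map (mq T m2.g), ?_⟩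
  · rw [← Matrix.map_mul, f1]
  · rw [qmap_comp, QForm.map_e, ← Matrix.map_mul, f2]
  · rw [qmap_comp, QForm.map_e, ← Matrix.map_mul, f3]
  · rw [qmap_comp]
    show ((x.map (mq T m1.g)).θ).map (mq T m2.g) = _
    rw [QForm.map_phi, mapH, dag_map, ← Matrix.map_sub _ (map_sub (mq T m2.g)),
      ← Matrix.map_mul, ← Matrix.map_add _ (map_add (mq T m2.g)), f4]

/-- Equal forms at a later stage. -/
theorem form_eq_later {G : Type} [Group G] (s : Stg G) (x y : Forms (Z s.F T) ε)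
    (h : formsMap ε (mq T s.h) x = formsMap ε (mq T s.h) y) :
    ∃ (s' : Stg G) (m : Mor s s'), formsMap ε (mq T m.g) x = formsMap ε (mq T m.g) y := by
  obtain ⟨n, x⟩ := x
  obtain ⟨k, y⟩ := y
  obtain ⟨hn, hxy⟩ := Sigma.mk.inj_iff.1 h
  have hn' : n = k := hn
  subst hn'
  have hxy' : x.map (mq T s.h) = y.map (mq T s.h) := eq_of_heq hxy
  have e1 : x.θ.map (mq T s.h) = y.θ.map (mq T s.h) := congrArg QForm.θ hxy'
  have e2 : x.ψ.map (mq T s.h) = y.ψ.map (mq T s.h) := congrArg QForm.ψ hxy'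
  obtain ⟨s2, m2, f⟩ := eq_later s (K := Fin 2) (ι := fun _ => Fin n) (κ := fun _ => Fin n)
    (T := T) ![x.θ, x.ψ] ![y.θ, y.ψ] (fun k => by fin_cases k; exacts [e1, e2])
  have f1 : x.θ.map (mq T m2.g) = y.θ.map (mq T m2.g) := f 0
  have f2 : x.ψ.map (mq T m2.g) = y.ψ.map (mq T m2.g) := f 1
  refine ⟨s2, m2, ?_⟩
  unfold formsMap
  congr 1
  exact QForm.ext f1 f2

/-- Equal combinations of forms at a later stage. -/
theorem comb_later {G : Type} [Group G] (s : Stg G) (r : Forms (Z s.F T) ε →₀ ℚ)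
    (h : Finsupp.mapDomain (formsMap ε (mq T s.h)) r = 0) :
    ∃ (s' : Stg G) (m : Mor s s'), Finsupp.mapDomain (formsMap ε (mq T m.g)) r = 0 := by
  classical
  obtain ⟨s', m, h1⟩ := fin_later (s0 := s)
    (fun (p : Forms (Z s.F T) ε × Forms (Z s.F T) ε) (s' : Stg G) (m : Mor s s') =>
      formsMap ε (mq T s.h) p.1 = formsMap ε (mq T s.h) p.2 →
        formsMap ε (mq T m.g) p.1 = formsMap ε (mq T m.g) p.2)
    (fun p s1 s2 m m' h hp => by rw [formsMap_comp, formsMap_comp, h hp])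
    (fun p s1 m => by
      by_cases hp : formsMap ε (mq T s.h) p.1 = formsMap ε (mq T s.h) p.2
      · obtain ⟨s2, m2, h⟩ := form_eq_later s1 (formsMap ε (mq T m.g) p.1)
          (formsMap ε (mq T m.g) p.2) (by rw [formsMap_comm, formsMap_comm, hp])
        exact ⟨s2, m2, fun _ => by rw [formsMap_comp, formsMap_comp, h]⟩
      · exact ⟨s1, Mor.id s1, fun h => absurd h hp⟩) (r.support ×ˢ r.support).toList
  refine ⟨s', m, md_kill _ (formsMap ε (mq T s'.h)) r ?_ ?_⟩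
  · have e : formsMap ε (mq T s'.h) ∘ formsMap ε (mq T m.g) = formsMap ε (mq T s.h) :=
      funext fun x => formsMap_comm m x
    rw [e, h]
  · intro x hx y hy hxy
    rw [formsMap_comm, formsMap_comm] at hxy
    exact h1 (x, y) (by simp [Finsupp.mem_support_iff.1 hx, Finsupp.mem_support_iff.1 hy]) hxy

/-- Relations are lifted. -/
theorem rel_lift {G : Type} [Group G] (s : Stg G) (r : Forms (Z G T) ε →₀ ℚ)
    (hr : LRel (Z G T) ε r) : ∃ (s' : Stg G) (_ : Mor s s') (r' : Forms (Z s'.F T) ε →₀ ℚ),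
      r' ∈ LSpan (Z s'.F T) ε ∧ Finsupp.mapDomain (formsMap ε (mq T s'.h)) r' = r := by
  rcases hr with ⟨⟨n, x⟩, ⟨k, y⟩, h, rfl⟩ | ⟨n, x, y, z, h1, h2, h3, h4, rfl⟩ | ⟨⟨n, x⟩, h, rfl⟩
  · obtain ⟨s1, m1, x1, e1⟩ := lift_form s x
    obtain ⟨s2, m2, y2, e2⟩ := lift_form s1 y
    have e1' : (x1.map (mq T m2.g)).map (mq T s2.h) = x := by rw [qmap_comm, e1]
    obtain ⟨s3, m3, h3⟩ := isom_later s2 (x1.map (mq T m2.g)) y2 (by rw [e1', e2]; exact h)
    refine ⟨s3, (m1.comp m2).comp m3,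
      Finsupp.single ⟨n, (x1.map (mq T m2.g)).map (mq T m3.g)⟩ 1 -
        Finsupp.single ⟨k, y2.map (mq T m3.g)⟩ 1, ?_, ?_⟩
    · exact Submodule.subset_span (Or.inl ⟨⟨n, _⟩, ⟨k, _⟩, h3, rfl⟩)
    · rw [← Finsupp.lmapDomain_apply ℚ ℚ, map_sub, Finsupp.lmapDomain_apply,
        Finsupp.lmapDomain_apply, Finsupp.mapDomain_single, Finsupp.mapDomain_single]
      unfold formsMap
      simp only
      rw [qmap_comm, e1', qmap_comm, e2]
  · obtain ⟨s1, m1, x1, e1⟩ := lift_form s x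
    obtain ⟨s2, m2, y2, e2⟩ := lift_form s1 y
    obtain ⟨s3, m3, z3, e3⟩ := lift_form s2 z
    obtain ⟨x3, hx3⟩ : ∃ x3, x3 = x1.map (mq T (m2.comp m3).g) := ⟨_, rfl⟩
    obtain ⟨y3, hy3⟩ : ∃ y3, y3 = y2.map (mq T m3.g) := ⟨_, rfl⟩
    have ex : x3.map (mq T s3.h) = x := by rw [hx3, qmap_comm, e1]
    have ey : y3.map (mq T s3.h) = y := by rw [hy3, qmap_comm, e2]
    have g1 : z3.θ.map (mq T s3.h) = (x3.θ + y3.θ).map (mq T s3.h) := by
      rw [Matrix.map_add _ (map_add (mq T s3.h))]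
      show (z3.map (mq T s3.h)).θ = (x3.map (mq T s3.h)).θ + (y3.map (mq T s3.h)).θ
      rw [e3, ex, ey, h1]
    have g2 : z3.ψ.map (mq T s3.h) = (x3.ψ + y3.ψ).map (mq T s3.h) := by
      rw [Matrix.map_add _ (map_add (mq T s3.h))]
      show (z3.map (mq T s3.h)).ψ = (x3.map (mq T s3.h)).ψ + (y3.map (mq T s3.h)).ψ
      rw [e3, ex, ey, h2]
    have g3 : (x3.φ * y3.ψ).map (mq T s3.h) = (0 : Matrix (Fin n) (Fin n) (Z s3.F T)).map
        (mq T s3.h) := by
      rw [Matrix.map_mul, ← QForm.map_phi, Matrix.map_zero _ (map_zero (mq T s3.h))]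
      show (x3.map (mq T s3.h)).φ * (y3.map (mq T s3.h)).ψ = 0
      rw [ex, ey, h3]
    have g4 : (y3.φ * x3.ψ).map (mq T s3.h) = (0 : Matrix (Fin n) (Fin n) (Z s3.F T)).map
        (mq T s3.h) := by
      rw [Matrix.map_mul, ← QForm.map_phi, Matrix.map_zero _ (map_zero (mq T s3.h))]
      show (y3.map (mq T s3.h)).φ * (x3.map (mq T s3.h)).ψ = 0
      rw [ex, ey, h4]
    obtain ⟨s4, m4, f⟩ := eq_later s3 (K := Fin 4) (ι := fun _ => Fin n) (κ := fun _ => Fin n)
      (T := T) ![z3.θ, z3.ψ, x3.φ * y3.ψ, y3.φ * x3.ψ] ![x3.θ + y3.θ, x3.ψ + y3.ψ, 0, 0]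
      (fun k => by fin_cases k; exacts [g1, g2, g3, g4])
    have f1 : z3.θ.map (mq T m4.g) = (x3.θ + y3.θ).map (mq T m4.g) := f 0
    have f2 : z3.ψ.map (mq T m4.g) = (x3.ψ + y3.ψ).map (mq T m4.g) := f 1
    have f3 : (x3.φ * y3.ψ).map (mq T m4.g) = (0 : Matrix (Fin n) (Fin n) (Z s3.F T)).map
      (mq T m4.g) := f 2
    have f4 : (y3.φ * x3.ψ).map (mq T m4.g) = (0 : Matrix (Fin n) (Fin n) (Z s3.F T)).map
      (mq T m4.g) := f 3
    rw [Matrix.map_add _ (map_add (mq T m4.g))] at f1 f2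
    rw [Matrix.map_mul, Matrix.map_zero _ (map_zero (mq T m4.g)), ← QForm.map_phi] at f3 f4
    refine ⟨s4, ((m1.comp m2).comp m3).comp m4,
      Finsupp.single ⟨n, z3.map (mq T m4.g)⟩ 1 - Finsupp.single ⟨n, x3.map (mq T m4.g)⟩ 1 -
        Finsupp.single ⟨n, y3.map (mq T m4.g)⟩ 1, ?_, ?_⟩
    · exact Submodule.subset_span (Or.inr (Or.inl ⟨n, x3.map (mq T m4.g), y3.map (mq T m4.g),
        z3.map (mq T m4.g), f1, f2, f3, f4, rfl⟩))
    · rw [← Finsupp.lmapDomain_apply ℚ ℚ, map_sub, map_sub, Finsupp.lmapDomain_apply,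
        Finsupp.lmapDomain_apply, Finsupp.lmapDomain_apply, Finsupp.mapDomain_single,
        Finsupp.mapDomain_single, Finsupp.mapDomain_single]
      unfold formsMap
      simp only
      rw [qmap_comm, qmap_comm, qmap_comm, ex, ey, e3]
  · obtain ⟨s1, m1, x1, e1⟩ := lift_form s x
    obtain ⟨s2, m2, h2⟩ := hyp_later s1 x1 (by rw [e1]; exact h)
    refine ⟨s2, m1.comp m2, Finsupp.single ⟨n, x1.map (mq T m2.g)⟩ 1, ?_, ?_⟩
    · exact Submodule.subset_span (Or.inr (Or.inr ⟨⟨n, _⟩, h2, rfl⟩))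
    · rw [Finsupp.mapDomain_single]
      unfold formsMap
      simp only
      rw [qmap_comm, e1]

/-- Elements of the span of the relations are lifted. -/
theorem span_lift {G : Type} [Group G] (r : Forms (Z G T) ε →₀ ℚ) (hr : r ∈ LSpan (Z G T) ε) :
    ∀ s : Stg G, ∃ (s' : Stg G) (_ : Mor s s') (r' : Forms (Z s'.F T) ε →₀ ℚ),
      r' ∈ LSpan (Z s'.F T) ε ∧ Finsupp.mapDomain (formsMap ε (mq T s'.h)) r' = r := by
  induction hr using Submodule.span_induction with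
  | mem r hr => exact fun s => rel_lift s r hr
  | zero => exact fun s => ⟨s, Mor.id s, 0, Submodule.zero_mem _, Finsupp.mapDomain_zero⟩
  | add r1 r2 _ _ ih1 ih2 =>
    intro s
    obtain ⟨s1, m1, q1, h1, e1⟩ := ih1 s
    obtain ⟨s2, m2, q2, h2, e2⟩ := ih2 s1
    refine ⟨s2, m1.comp m2, Finsupp.mapDomain (formsMap ε (mq T m2.g)) q1 + q2,
      Submodule.add_mem _ (lspan_map ε (mq T m2.g) h1) h2, ?_⟩
    have e : formsMap ε (mq T s2.h) ∘ formsMap ε (mq T m2.g) = formsMap ε (mq T s1.h) :=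
      funext fun x => formsMap_comm m2 x
    rw [Finsupp.mapDomain_add, ← Finsupp.mapDomain_comp, e, e1, e2]
  | smul c r _ ih =>
    intro s
    obtain ⟨s1, m1, q1, h1, e1⟩ := ih s
    exact ⟨s1, m1, c • q1, Submodule.smul_mem _ c h1, by rw [Finsupp.mapDomain_smul, e1]⟩

open Pool.Agent.Y778.SG CategoryTheory in
/-- **The rationalised L-groups of group rings form a finitary functor.** -/
theorem fin : S_Fin := by
  intro ε T _ F G _ _ _ f z hz
  obtain ⟨r, rfl⟩ := Submodule.mkQ_surjective (LSpan (Z F T) ε) z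
  have hz' : Finsupp.mapDomain (formsMap ε (mq T f)) r ∈ LSpan (Z G T) ε :=
    (Submodule.Quotient.mk_eq_zero _).1 hz
  let s0 : Stg G := ⟨F, f⟩
  obtain ⟨s1, m1, q, h1, e1⟩ := span_lift _ hz' s0
  have e2 : formsMap ε (mq T s1.h) ∘ formsMap ε (mq T m1.g) = formsMap ε (mq T f) :=
    funext fun x => formsMap_comm m1 x
  obtain ⟨s2, m2, h2⟩ := comb_later s1 (q - Finsupp.mapDomain (formsMap ε (mq T m1.g)) r) (by
    rw [← Finsupp.lmapDomain_apply ℚ ℚ, map_sub, Finsupp.lmapDomain_apply,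
      Finsupp.lmapDomain_apply, e1, ← Finsupp.mapDomain_comp, e2, sub_self])
  rw [← Finsupp.lmapDomain_apply ℚ ℚ, map_sub, Finsupp.lmapDomain_apply,
    Finsupp.lmapDomain_apply, sub_eq_zero, ← Finsupp.mapDomain_comp] at h2
  have e3 : formsMap ε (mq T m2.g) ∘ formsMap ε (mq T m1.g) =
      formsMap ε (mq T (m1.comp m2).g) := funext fun x => (formsMap_comp m1 m2 x).symm
  rw [e3] at h2
  refine ⟨s2.F, inferInstance, inferInstance, (m1.comp m2).g, s2.h, (m1.comp m2).comm, ?_⟩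
  have h3 : Finsupp.mapDomain (formsMap ε (mq T (m1.comp m2).g)) r ∈ LSpan (Z s2.F T) ε := by
    rw [← h2]
    exact lspan_map ε (mq T m2.g) h1
  exact (Submodule.Quotient.mk_eq_zero _).2 h3

end Pool.Agent.Y688.SG
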